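import Pool.Agent.J6H27.N18.Dat

/-!
# The cases of the parity classification (helper27)
-/

set_option autoImplicit false

namespace J6H27.N18

open Finset

set_option linter.unusedSectionVars false

variable {V : Type} [Fintype V] [DecidableEq V] {H : SimpleGraph V} [DecidableRel H.Adj] {x : V → ℤ}

/-! ### the quadratic form -/

/-- symmetry of the adjacency form -/
theorem form_symm (H : SimpleGraph V) [DecidableRel H.Adj] (f g : V → ℤ) :
    ∑ v, f v * ∑ w ∈ H.neighborFinset v, g w = ∑ v, g v * ∑ w ∈ H.neighborFinset v, f w := by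
  have h1 : ∀ f g : V → ℤ, ∑ v, f v * ∑ w ∈ H.neighborFinset v, g w =
      ∑ v, ∑ w, if H.Adj v w then f v * g w else 0 := by
    intro f g
    refine sum_congr rfl fun v _ => ?_
    rw [mul_sum, ← sum_filter]
    refine sum_congr ?_ fun _ _ => rfl
    ext w
    simp
  rw [h1, h1, sum_comm]
  refine sum_congr rfl fun v _ => sum_congr rfl fun w _ => ?_
  by_cases h : H.Adj v w
  · rw [if_pos h, if_pos h.symm, mul_comm]
  · rw [if_neg h, if_neg (fun h' => h h'.symm)]

/-- the adjacency form is even -/
theorem form_even (H : SimpleGraph V) [DecidableRel H.Adj] (f : V → ℤ) :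
    (∑ v, f v * ∑ w ∈ H.neighborFinset v, f w) % 2 = 0 := by
  have h1 : ∑ v, f v * ∑ w ∈ H.neighborFinset v, f w =
      ∑ p ∈ (univ : Finset V) ×ˢ (univ : Finset V), if H.Adj p.1 p.2 then f p.1 * f p.2 else 0 := by
    rw [sum_product]
    refine sum_congr rfl fun v _ => ?_
    rw [mul_sum, ← sum_filter]
    refine sum_congr ?_ fun _ _ => rfl
    ext w
    simp
  rw [h1]
  apply Int.emod_eq_zero_of_dvd
  rw [← Nat.cast_ofNat, ← ZMod.intCast_zmod_eq_zero_iff_dvd]
  push_cast
  refine sum_involution (fun p _ => (p.2, p.1)) ?_ ?_ ?_ ?_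
  · rintro ⟨v, w⟩ -
    dsimp only
    by_cases h : H.Adj v w
    · rw [if_pos h, if_pos h.symm]
      push_cast
      rw [mul_comm (f w : ZMod 2)]
      exact CharTwo.add_self_eq_zero _
    · rw [if_neg h, if_neg (fun h' => h h'.symm)]
      simp
  · rintro ⟨v, w⟩ - h1 h2
    rw [Prod.mk.injEq] at h2
    apply h1
    dsimp only at *
    rw [h2.1]
    simp
  · intro p _
    simp
  · intro p _
    rfl

/-! ### parities -/

theorem card_odd_nbr (H : SimpleGraph V) [DecidableRel H.Adj] (x : V → ℤ) (v : V) :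
    ∑ w ∈ H.neighborFinset v, x w % 2 = (((H.neighborFinset v).filter (fun w => x w % 2 = 1)).card : ℤ) := by
  rw [card_filter]
  push_cast
  refine sum_congr rfl fun w _ => ?_
  split_ifs with h <;> omega

theorem card_split (h : Dat H x) (v : V) :
    ((H.neighborFinset v).filter (fun w => x w % 2 = 1)).card +
      ((H.neighborFinset v).filter (fun w => x w % 2 = 0)).card = 3 := by
  rw [← h.reg v, ← card_filter_add_card_filter_not (s := H.neighborFinset v) (fun w => x w % 2 = 1)]
  congr 2
  refine filter_congr fun w _ => ?_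
  omega

/-- the halved image of the indicator of the odd vertices -/
theorem ker_half (h : Dat H x) (v : V) :
    x v % 2 + (((H.neighborFinset v).filter (fun w => x w % 2 = 1)).card : ℤ) =
      2 * -(x v / 2 + ∑ w ∈ H.neighborFinset v, x w / 2) := by
  have h1 := h.ker v
  have h2 : ∑ w ∈ H.neighborFinset v, x w =
      ∑ w ∈ H.neighborFinset v, x w % 2 + 2 * ∑ w ∈ H.neighborFinset v, x w / 2 := by
    rw [mul_sum, ← sum_add_distrib]
    exact sum_congr rfl fun w _ => (by omega)
  rw [h2, card_odd_nbr] at h1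
  omega

theorem odd_nbr (h : Dat H x) {v : V} (hv : x v % 2 = 1) :
    ((H.neighborFinset v).filter (fun w => x w % 2 = 1)).card = 1 ∨
      ((H.neighborFinset v).filter (fun w => x w % 2 = 1)).card = 3 := by
  have h1 := card_split h v
  have h2 := ker_half h v
  omega

theorem even_nbr (h : Dat H x) {v : V} (hv : x v % 2 = 0) :
    ((H.neighborFinset v).filter (fun w => x w % 2 = 0)).card = 1 ∨
      ((H.neighborFinset v).filter (fun w => x w % 2 = 0)).card = 3 := by
  have h1 := card_split h v
  have h2 := ker_half h v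
  omega

theorem mem_OO {v : V} : v ∈ OO x ↔ x v % 2 = 1 := by simp [OO]

theorem mem_EE {v : V} : v ∈ EE x ↔ x v % 2 = 0 := by simp [EE]

theorem mem_CO {v : V} : v ∈ CO H x ↔ x v % 2 = 1 ∧
    ((H.neighborFinset v).filter (fun w => x w % 2 = 1)).card = 1 := by simp [CO, OO]

theorem mem_CE {v : V} : v ∈ CE H x ↔ x v % 2 = 0 ∧
    ((H.neighborFinset v).filter (fun w => x w % 2 = 0)).card = 1 := by simp [CE, EE]

theorem card_OO_add (x : V → ℤ) : (OO x).card + (EE x).card = Fintype.card V := by
  rw [← card_univ, ← card_filter_add_card_filter_not (s := (univ : Finset V)) (fun w => x w % 2 = 1)]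
  rw [OO, EE]
  congr 2
  refine filter_congr fun w _ => ?_
  omega

theorem sum_odd (x : V → ℤ) : ∑ v, x v % 2 = ((OO x).card : ℤ) := by
  rw [OO, card_filter]
  push_cast
  refine sum_congr rfl fun w _ => ?_
  split_ifs with h <;> omega

theorem sum_z (h : Dat H x) : ((OO x).card : ℤ) + 2 * ∑ v, x v / 2 = 0 := by
  rw [← sum_odd, mul_sum, ← sum_add_distrib, ← h.sum]
  exact sum_congr rfl fun w _ => (by omega)

/-- the halved image, in terms of the classes -/
theorem y_eq (h : Dat H x) (v : V) :
    -(x v / 2 + ∑ w ∈ H.neighborFinset v, x w / 2) =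
      2 * (if v ∈ OO x then 1 else 0) - (if v ∈ CO H x then 1 else 0) + (if v ∈ CE H x then 1 else 0) := by
  have h1 := card_split h v
  have h2 := ker_half h v
  have h3 : x v % 2 = 1 ∨ x v % 2 = 0 := by omega
  rcases h3 with h3 | h3
  · rw [if_pos (mem_OO.2 h3)]
    have h5 : v ∉ CE H x := by
      rw [mem_CE]
      omega
    rw [if_neg h5]
    rcases odd_nbr h h3 with h4 | h4
    · rw [if_pos (mem_CO.2 ⟨h3, h4⟩)]
      omega
    · rw [if_neg (by rw [mem_CO]; omega)]
      omega
  · rw [if_neg (by rw [mem_OO]; omega), if_neg (by rw [mem_CO]; omega)]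
    rcases even_nbr h h3 with h4 | h4
    · rw [if_pos (mem_CE.2 ⟨h3, h4⟩)]
      omega
    · rw [if_neg (by rw [mem_CE]; omega)]
      omega

theorem sum_ite_mem (s : Finset V) : ∑ v, (if v ∈ s then (1 : ℤ) else 0) = (s.card : ℤ) := by
  simp

theorem CO_sub : CO H x ⊆ OO x := filter_subset _ _

theorem CE_sub : CE H x ⊆ EE x := filter_subset _ _

/-- as many odd cross vertices as even cross vertices -/
theorem card_CO_CE (h : Dat H x) : (CO H x).card = (CE H x).card := by
  have h1 : ∑ v, -(x v / 2 + ∑ w ∈ H.neighborFinset v, x w / 2) = 2 * ((OO x).card : ℤ) := by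
    rw [sum_neg_distrib, sum_add_distrib]
    have h2 : ∑ v, ∑ w ∈ H.neighborFinset v, x w / 2 = 3 * ∑ v, x v / 2 := by
      have h3 := form_symm H (fun _ => (1 : ℤ)) (fun v => x v / 2)
      simp only [one_mul, sum_const] at h3
      rw [h3, mul_sum]
      refine sum_congr rfl fun v _ => ?_
      rw [h.reg v]
      simp [mul_comm]
    rw [h2]
    have h4 := sum_z h
    linarith
  rw [sum_congr rfl fun v _ => y_eq h v, sum_add_distrib, sum_sub_distrib, ← mul_sum, sum_ite_mem, sum_ite_mem,
    sum_ite_mem] at h1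
  omega

/-- the number of cross vertices is congruent to the number of odd vertices modulo 4, and both are even -/
theorem card_mod (h : Dat H x) : (OO x).card % 2 = 0 ∧ (CO H x).card % 4 = (OO x).card % 4 := by
  have hs := sum_z h
  set z : V → ℤ := fun v => x v / 2 with hz
  set o : V → ℤ := fun v => x v % 2 with ho
  set y : V → ℤ := fun v => -(x v / 2 + ∑ w ∈ H.neighborFinset v, x w / 2) with hy
  -- the image of `o` is `2 y`
  have h1 : ∀ v, o v + ∑ w ∈ H.neighborFinset v, o w = 2 * y v := by
    intro v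
    rw [ho, hy]
    simp only
    rw [card_odd_nbr]
    exact ker_half h v
  have h2 : ∀ v, z v + ∑ w ∈ H.neighborFinset v, z w = - y v := by
    intro v
    rw [hz, hy]
    simp
  -- `∑ o y = 2 |O| - t`
  have h3 : ∑ v, o v * y v = 2 * ((OO x).card : ℤ) - (CO H x).card := by
    have h4 : ∀ v, o v * y v = 2 * (if v ∈ OO x then 1 else 0) - (if v ∈ CO H x then 1 else 0) := by
      intro v
      have h5 := y_eq h v
      have h6 : o v = x v % 2 := rfl
      have h7 : y v = -(x v / 2 + ∑ w ∈ H.neighborFinset v, x w / 2) := rfl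
      rw [h7, h5, h6]
      by_cases h8 : x v % 2 = 1
      · have h9 : v ∉ CE H x := by
          rw [mem_CE]
          omega
        rw [if_pos (mem_OO.2 h8), if_neg h9, h8]
        ring
      · have h9 : v ∉ OO x := by rwa [mem_OO]
        have h10 : v ∉ CO H x := fun h' => h9 (CO_sub h')
        have h11 : x v % 2 = 0 := by omega
        rw [if_neg h9, if_neg h10, h11]
        ring
    rw [sum_congr rfl fun v _ => h4 v, sum_sub_distrib, ← mul_sum, sum_ite_mem, sum_ite_mem]
  -- symmetry for `o` and `z`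
  have h4 : ∑ v, o v * (z v + ∑ w ∈ H.neighborFinset v, z w) =
      ∑ v, z v * (o v + ∑ w ∈ H.neighborFinset v, o w) := by
    have h5 : ∀ f g : V → ℤ, ∑ v, f v * (g v + ∑ w ∈ H.neighborFinset v, g w) =
        ∑ v, f v * g v + ∑ v, f v * ∑ w ∈ H.neighborFinset v, g w := by
      intro f g
      rw [← sum_add_distrib]
      exact sum_congr rfl fun v _ => by ring
    rw [h5, h5, form_symm H o z]
    congr 1
    exact sum_congr rfl fun v _ => mul_comm _ _
  rw [sum_congr rfl fun v _ => congrArg (fun t => o v * t) (h2 v),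
    sum_congr rfl fun v _ => congrArg (fun t => z v * t) (h1 v)] at h4
  have h5 : ∑ v, o v * -y v = - ∑ v, o v * y v := by
    rw [← sum_neg_distrib]
    exact sum_congr rfl fun v _ => by ring
  have h6 : ∑ v, z v * (2 * y v) = 2 * ∑ v, z v * y v := by
    rw [mul_sum]
    exact sum_congr rfl fun v _ => by ring
  rw [h5, h6, h3] at h4
  -- the form of `z`
  have h7 : ∑ v, z v * (z v + ∑ w ∈ H.neighborFinset v, z w) = - ∑ v, z v * y v := by
    rw [sum_congr rfl fun v _ => congrArg (fun t => z v * t) (h2 v), ← sum_neg_distrib]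
    exact sum_congr rfl fun v _ => by ring
  have h8 : ∑ v, z v * (z v + ∑ w ∈ H.neighborFinset v, z w) =
      ∑ v, z v * z v + ∑ v, z v * ∑ w ∈ H.neighborFinset v, z w := by
    rw [← sum_add_distrib]
    exact sum_congr rfl fun v _ => by ring
  have h9 := form_even H z
  have h10 : (∑ v, z v * z v - ∑ v, z v) % 2 = 0 := by
    rw [← sum_sub_distrib]
    apply Int.emod_eq_zero_of_dvd
    refine dvd_sum fun v _ => ?_
    have : z v * z v - z v = z v * (z v - 1) := by ring
    rw [this]
    rcases Int.even_or_odd (z v) with h' | h'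
    · exact (h'.two_dvd).mul_right _
    · obtain ⟨k, hk⟩ := h'
      exact Dvd.dvd.mul_left ⟨k, by omega⟩ _
  have h11 : ∑ v, x v / 2 = ∑ v, z v := rfl
  rw [h11] at hs
  omega

/-! ### connectivity and closed twins -/

theorem twins (h : Dat H x) {u v : V} (huv : u ≠ v)
    (ht : insert u (H.neighborFinset u) = insert v (H.neighborFinset v)) (hV : 2 < Fintype.card V) : False := by
  have h1 : ∀ (w a : V), a ∈ insert w (H.neighborFinset w) ↔ w = a ∨ H.Adj w a := by
    intro w a
    rw [mem_insert, SimpleGraph.mem_neighborFinset]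
    constructor
    · rintro (h | h)
      · exact Or.inl h.symm
      · exact Or.inr h
    · rintro (h | h)
      · exact Or.inl h.symm
      · exact Or.inr h
  have h2 : ∀ w, (w = u ∨ H.Adj w u) ↔ (w = v ∨ H.Adj w v) := by
    intro w
    have h3 : w ∈ insert u (H.neighborFinset u) ↔ w ∈ insert v (H.neighborFinset v) := by rw [ht]
    rw [h1, h1] at h3
    rw [eq_comm, H.adj_comm, h3, eq_comm, H.adj_comm]
  let y : V → ℤ := fun a => (if a = u then 1 else 0) - (if a = v then 1 else 0)
  have h4 : ∀ w, y w + ∑ a ∈ H.neighborFinset w, y a = 0 := by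
    intro w
    have h5 : y w + ∑ a ∈ H.neighborFinset w, y a = ∑ a ∈ insert w (H.neighborFinset w), y a := by
      rw [sum_insert]
      simp
    rw [h5]
    simp only [y]
    rw [sum_sub_distrib, sum_ite_eq', sum_ite_eq']
    have h6 := h2 w
    rw [← h1, ← h1] at h6
    by_cases h7 : u ∈ insert w (H.neighborFinset w)
    · rw [if_pos h7, if_pos (h6.1 h7)]
      simp
    · rw [if_neg h7, if_neg (fun h' => h7 (h6.2 h'))]
      simp
  obtain ⟨a, ha⟩ : ∃ a : V, a ∉ ({u, v} : Finset V) := by
    by_contra hc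
    push Not at hc
    have h5 : (univ : Finset V) ⊆ {u, v} := fun a _ => hc a
    have h6 := card_le_card h5
    rw [card_univ, card_pair huv] at h6
    omega
  rw [mem_insert, mem_singleton] at ha
  push Not at ha
  have h5 := h.uniq y h4 ⟨a, by simp [y, ha.1, ha.2]⟩ u
  simp [y, huv] at h5

/-- there is a cross vertex -/
theorem CO_ne (h : Dat H x) (hV : Fintype.card V % 4 = 2) : (CO H x).card ≠ 0 := by
  intro h0
  rw [card_eq_zero] at h0
  have h1 : ∀ v, x v % 2 = 1 → ∀ w ∈ H.neighborFinset v, x w % 2 = 1 := by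
    intro v hv w hw
    have h2 : ((H.neighborFinset v).filter (fun w => x w % 2 = 1)).card = 3 := by
      rcases odd_nbr h hv with h3 | h3
      · exfalso
        have h4 : v ∈ CO H x := mem_CO.2 ⟨hv, h3⟩
        rw [h0] at h4
        exact notMem_empty _ h4
      · exact h3
    have h3 : (H.neighborFinset v).filter (fun w => x w % 2 = 1) = H.neighborFinset v :=
      eq_of_subset_of_card_le (filter_subset _ _) (by rw [h2, h.reg v])
    rw [← h3, mem_filter] at hw
    exact hw.2
  obtain ⟨u, hu⟩ := h.odd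
  -- an even vertex exists
  have h2 : ∃ v, x v % 2 = 0 := by
    by_contra hc
    push Not at hc
    have h3 : OO x = univ := by
      ext v
      rw [mem_OO]
      have := hc v
      simp only [mem_univ, iff_true]
      omega
    have h4 := (card_mod h).2
    rw [h3, card_univ, h0, card_empty] at h4
    omega
  obtain ⟨v₀, hv₀⟩ := h2
  let y : V → ℤ := fun v => if x v % 2 = 1 then x v else 0
  have h3 : ∀ v, y v + ∑ w ∈ H.neighborFinset v, y w = 0 := by
    intro v
    rcases Int.emod_two_eq_zero_or_one (x v) with hv | hv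
    · have h4 : ∀ w ∈ H.neighborFinset v, y w = 0 := by
        intro w hw
        simp only [y]
        rw [if_neg]
        intro h5
        have h6 := h1 w h5 v (by
          rw [SimpleGraph.mem_neighborFinset] at hw ⊢
          exact hw.symm)
        omega
      rw [sum_eq_zero h4]
      simp only [y]
      rw [if_neg (by omega)]
      simp
    · have h4 : ∑ w ∈ H.neighborFinset v, y w = ∑ w ∈ H.neighborFinset v, x w := by
        refine sum_congr rfl fun w hw => ?_
        simp only [y]
        rw [if_pos (h1 v hv w hw)]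
      rw [h4]
      simp only [y]
      rw [if_pos hv]
      exact h.ker v
  have h4 := h.uniq y h3 ⟨v₀, by simp only [y]; rw [if_neg (by omega)]⟩ u
  simp only [y] at h4
  rw [if_pos hu] at h4
  exact h.nz u h4

/-! ### two cross vertices -/

/-- the neighbours of an odd vertex that is not a cross vertex are odd -/
theorem sub_of_not_CO (h : Dat H x) {v : V} (hv : x v % 2 = 1) (hc : v ∉ CO H x) :
    H.neighborFinset v ⊆ OO x := by
  intro w hw
  rw [mem_OO]
  have h2 : ((H.neighborFinset v).filter (fun w => x w % 2 = 1)).card = 3 := by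
    rcases odd_nbr h hv with h3 | h3
    · exact absurd (mem_CO.2 ⟨hv, h3⟩) hc
    · exact h3
  have h3 : (H.neighborFinset v).filter (fun w => x w % 2 = 1) = H.neighborFinset v :=
    eq_of_subset_of_card_le (filter_subset _ _) (by rw [h2, h.reg v])
  rw [← h3, mem_filter] at hw
  exact hw.2

/-- the neighbours of an even vertex that is not a cross vertex are even -/
theorem sub_of_not_CE (h : Dat H x) {v : V} (hv : x v % 2 = 0) (hc : v ∉ CE H x) :
    H.neighborFinset v ⊆ EE x := by
  intro w hw
  rw [mem_EE]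
  have h2 : ((H.neighborFinset v).filter (fun w => x w % 2 = 0)).card = 3 := by
    rcases even_nbr h hv with h3 | h3
    · exact absurd (mem_CE.2 ⟨hv, h3⟩) hc
    · exact h3
  have h3 : (H.neighborFinset v).filter (fun w => x w % 2 = 0) = H.neighborFinset v :=
    eq_of_subset_of_card_le (filter_subset _ _) (by rw [h2, h.reg v])
  rw [← h3, mem_filter] at hw
  exact hw.2

/-- two vertices whose closed neighbourhood is the same set of four vertices -/
theorem no_four (h : Dat H x) (hV : 2 < Fintype.card V) {S : Finset V} (hS : S.card ≤ 4) {u v : V} (huv : u ≠ v)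
    (hu : u ∈ S) (hv : v ∈ S) (hu' : H.neighborFinset u ⊆ S) (hv' : H.neighborFinset v ⊆ S) : False := by
  have h1 : ∀ w ∈ S, H.neighborFinset w ⊆ S → insert w (H.neighborFinset w) = S := by
    intro w hw hw'
    refine eq_of_subset_of_card_le (insert_subset hw hw') ?_
    rw [card_insert_of_notMem (by simp), h.reg w]
    exact hS
  exact twins h huv ((h1 u hu hu').trans (h1 v hv hv').symm) hV

theorem not_two_two (h : Dat H x) (hV : 2 < Fintype.card V) (h1 : (CO H x).card = 2) (h2 : (OO x).card = 2) :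
    False := by
  have h3 : CO H x = OO x := eq_of_subset_of_card_le CO_sub (by omega)
  obtain ⟨a, b, hab, hO⟩ := card_eq_two.1 h2
  -- the neighbours of an odd vertex are odd or even cross vertices
  have h4 : ∀ v ∈ OO x, H.neighborFinset v ⊆ OO x ∪ CE H x := by
    intro v hv w hw
    rw [mem_union]
    by_contra hc
    push Not at hc
    obtain ⟨hc1, hc2⟩ := hc
    have h5 : x w % 2 = 0 := by
      rw [mem_OO] at hc1
      omega
    have h6 := sub_of_not_CE h h5 hc2
    have h7 : v ∈ H.neighborFinset w := by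
      rw [SimpleGraph.mem_neighborFinset] at hw ⊢
      exact hw.symm
    have h8 := h6 h7
    rw [mem_EE] at h8
    rw [mem_OO] at hv
    omega
  have h5 : (OO x ∪ CE H x).card ≤ 4 := by
    have := card_union_le (OO x) (CE H x)
    have h6 := card_CO_CE h
    omega
  have ha : a ∈ OO x := by rw [hO]; simp
  have hb : b ∈ OO x := by rw [hO]; simp
  exact no_four h hV h5 hab (mem_union_left _ ha) (mem_union_left _ hb) (h4 a ha) (h4 b hb)

theorem not_two_six (h : Dat H x) (hV : 2 < Fintype.card V) (h1 : (CO H x).card = 2) (h2 : (OO x).card = 6) :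
    False := by
  set C : Finset V := OO x \ CO H x with hC
  have h3 : C.card = 4 := by
    rw [hC, card_sdiff_of_subset CO_sub]
    omega
  -- the members of `C` with a neighbour in `CO`
  set D : Finset V := C.filter (fun v => ∃ a ∈ CO H x, H.Adj a v) with hD
  have h4 : D.card ≤ 2 := by
    have h5 : D ⊆ (CO H x).biUnion (fun a => (H.neighborFinset a).filter (fun w => x w % 2 = 1)) := by
      intro v hv
      rw [hD, mem_filter] at hv
      obtain ⟨hv1, a, ha, hav⟩ := hv
      rw [mem_biUnion]
      refine ⟨a, ha, ?_⟩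
      rw [mem_filter, SimpleGraph.mem_neighborFinset]
      refine ⟨hav, ?_⟩
      rw [hC, mem_sdiff] at hv1
      exact mem_OO.1 hv1.1
    refine (card_le_card h5).trans (card_biUnion_le.trans ?_)
    rw [sum_congr rfl (fun a ha => (mem_CO.1 ha).2)]
    simp [h1]
  have hDC : D ⊆ C := filter_subset _ _
  have h5 : 1 < (C \ D).card := by
    rw [card_sdiff_of_subset hDC]
    omega
  obtain ⟨u, hu, v, hv, huv⟩ := one_lt_card.1 h5
  have h6 : ∀ w ∈ C \ D, H.neighborFinset w ⊆ C := by
    intro w hw a ha
    rw [mem_sdiff] at hw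
    obtain ⟨hw1, hw2⟩ := hw
    have hw3 := hw1
    rw [hC, mem_sdiff] at hw3
    have h7 := sub_of_not_CO h (mem_OO.1 hw3.1) hw3.2 ha
    rw [hC, mem_sdiff]
    refine ⟨h7, fun h8 => hw2 ?_⟩
    rw [hD, mem_filter]
    refine ⟨hw1, a, h8, ?_⟩
    rw [SimpleGraph.mem_neighborFinset] at ha
    exact ha.symm
  exact no_four h hV h3.le huv (mem_sdiff.1 hu).1 (mem_sdiff.1 hv).1 (h6 u hu) (h6 v hv)

theorem not_two_four (h : Dat H x) (hV : 2 < Fintype.card V) (h1 : (CO H x).card = 2) (h2 : (EE x).card = 4) :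
    False := by
  have h0 := card_CO_CE h
  have h5 : 1 < (EE x \ CE H x).card := by
    rw [card_sdiff_of_subset CE_sub]
    omega
  obtain ⟨u, hu, v, hv, huv⟩ := one_lt_card.1 h5
  rw [mem_sdiff] at hu hv
  exact no_four h hV h2.le huv hu.1 hv.1 (sub_of_not_CE h (mem_EE.1 hu.1) hu.2)
    (sub_of_not_CE h (mem_EE.1 hv.1) hv.2)

theorem arith (t o e : ℕ) (h1 : o % 2 = 0) (h2 : t % 4 = o % 4) (h3 : o + e = 18) (h4 : t ≠ 0) (h5 : t ≤ o)
    (h6 : t ≤ e) (h7 : t = 2 → o ≠ 2 ∧ o ≠ 6 ∧ e ≠ 4) :
    (t = 2 ∧ o = 10) ∨ (t = 4 ∧ o = 4) ∨ (t = 4 ∧ o = 8) ∨ (t = 4 ∧ o = 12) ∨ (t = 6 ∧ o = 6) ∨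
      (t = 6 ∧ o = 10) ∨ (t = 8 ∧ o = 8) := by
  have h8 : t ≤ 9 := by omega
  interval_cases t <;> omega

/-- **the cases** -/
theorem cases (hV : Fintype.card V = 18) (h : Dat H x) :
    (∀ v, x v % 2 = 1 → ((H.neighborFinset v).filter (fun w => x w % 2 = 1)).card = 1 ∨
      ((H.neighborFinset v).filter (fun w => x w % 2 = 1)).card = 3) ∧
    (∀ v, x v % 2 = 0 → ((H.neighborFinset v).filter (fun w => x w % 2 = 0)).card = 1 ∨
      ((H.neighborFinset v).filter (fun w => x w % 2 = 0)).card = 3) ∧
    (CO H x).card = (CE H x).card ∧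
    (((CO H x).card = 2 ∧ (OO x).card = 10) ∨ ((CO H x).card = 4 ∧ (OO x).card = 4) ∨
      ((CO H x).card = 4 ∧ (OO x).card = 8) ∨ ((CO H x).card = 4 ∧ (OO x).card = 12) ∨
      ((CO H x).card = 6 ∧ (OO x).card = 6) ∨ ((CO H x).card = 6 ∧ (OO x).card = 10) ∨
      ((CO H x).card = 8 ∧ (OO x).card = 8)) := by
  have h1 := card_CO_CE h
  have h2 := card_mod h
  have h3 := card_OO_add x
  rw [hV] at h3
  have h4 := CO_ne h (by rw [hV])
  have h5 := card_le_card (CO_sub (H := H) (x := x))
  have h6 := card_le_card (CE_sub (H := H) (x := x))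
  rw [← h1] at h6
  have hV' : 2 < Fintype.card V := by rw [hV]; norm_num
  refine ⟨fun v hv => odd_nbr h hv, fun v hv => even_nbr h hv, h1, ?_⟩
  exact arith _ _ _ h2.1 h2.2 h3 h4 h5 h6 (fun g => ⟨fun g' => not_two_two h hV' g g',
    fun g' => not_two_six h hV' g g', fun g' => not_two_four h hV' g g'⟩)

end J6H27.N18
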