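import Mathlib

/-!
# Nut graphs of degree 14 on 18 vertices: the data of a counterexample (helper27)

`H` is the complement of a 14-regular nut graph on 18 vertices, `x` a primitive integer vector of the kernel.
The parity of `x` splits the vertices in odd ones and even ones.
-/

set_option autoImplicit false

namespace J6H27.N18

open Finset

variable {V : Type} [Fintype V] [DecidableEq V]

/-- `H` is cubic, the vector `x` has no zero, is not divisible by two, has sum zero, and spans the kernel of
`A(H) + 1` (`uniq`: every integer vector of the kernel with a zero entry is zero). -/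
structure Dat (H : SimpleGraph V) [DecidableRel H.Adj] (x : V → ℤ) : Prop where
  reg : ∀ v, (H.neighborFinset v).card = 3
  nz : ∀ v, x v ≠ 0
  ker : ∀ v, x v + ∑ w ∈ H.neighborFinset v, x w = 0
  sum : ∑ v, x v = 0
  uniq : ∀ y : V → ℤ, (∀ v, y v + ∑ w ∈ H.neighborFinset v, y w = 0) → (∃ v, y v = 0) → ∀ v, y v = 0
  odd : ∃ v, x v % 2 = 1

/-- the odd vertices -/
def OO (x : V → ℤ) : Finset V := univ.filter (fun v => x v % 2 = 1)

/-- the even vertices -/
def EE (x : V → ℤ) : Finset V := univ.filter (fun v => x v % 2 = 0)

/-- the odd vertices with exactly one odd neighbour (the others have three odd neighbours) -/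
def CO (H : SimpleGraph V) [DecidableRel H.Adj] (x : V → ℤ) : Finset V :=
  (OO x).filter (fun v => ((H.neighborFinset v).filter (fun w => x w % 2 = 1)).card = 1)

/-- the even vertices with exactly one even neighbour (the others have three even neighbours) -/
def CE (H : SimpleGraph V) [DecidableRel H.Adj] (x : V → ℤ) : Finset V :=
  (EE x).filter (fun v => ((H.neighborFinset v).filter (fun w => x w % 2 = 0)).card = 1)

end J6H27.N18
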